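import Pool.Agent.W622.ETG.Stm

/-!
# Project ELG (helper622): cones have codimension at least two
-/

set_option autoImplicit false

namespace Pool.Agent.W688.ELG

open Pool.Agent.W622.ETG Module

theorem t_A1 (hRIG : S_RIG) (hST0 : S_ST0) : S_A1 := by
  intro V _ _ _ e A M hMC hM
  obtain ⟨p, h3, hpM, hp0, hpe, hp⟩ := hM
  by_contra hcon
  have hfin : finrank (ZMod 2) (Dl V) = finrank (ZMod 2) V := finrank_Dl
  by_cases hT : M = ⊤
  · -- the whole space
    obtain ⟨x, hx⟩ : ∃ x : V, p x ≠ 0 := by
      by_contra h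
      push Not at h
      exact hp0 (LinearMap.ext h)
    have hx1 : p x = 1 := z_ne hx
    have hx0 : x ≠ 0 := by
      rintro rfl
      exact hx (map_zero p)
    have hxe : x ≠ e := by
      rintro rfl
      exact hx hpe
    apply hMC.nel
    refine hRIG V e A x hMC.ef hMC.her hx0 hxe ?_ ?_ (hMC.el _ (ann_ne_top hx0))
    · intro f hf
      refine ⟨wd e p f, hp f (by rw [hT]; exact Submodule.mem_top), wd_val_one hx1 ?_⟩
      rw [map_add] at hf
      exact add_eq_zero'.1 hf
    · intro f hf
      refine ⟨wd e p f, hp f (by rw [hT]; exact Submodule.mem_top), wd_val_one ?_ ?_⟩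
      · rw [map_add, hx1, hpe, add_zero]
      · rw [map_add, hf, zero_add]
  · obtain ⟨b, hb, hMb⟩ := exists_ann hT
    have h1 : finrank (ZMod 2) (ann b) < finrank (ZMod 2) (Dl V) :=
      Submodule.finrank_lt (lt_top_iff_ne_top.2 (ann_ne_top hb)).ne
    have h2 : M = ann b := by
      apply Submodule.eq_of_le_of_finrank_le hMb
      omega
    refine hST0 V e A b p hMC hb hp0 ?_ hpe ?_
    · have : p ∈ ann b := hMb hpM
      exact this
    · intro g hg
      apply hp
      rw [h2]
      exact hg

end Pool.Agent.W688.ELG
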