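import Pool.Agent.W622.ETG.Stm

/-!
# Project ELG (helper622): fullness of a cone
-/

set_option autoImplicit false

namespace Pool.Agent.W688.ELG

open Pool.Agent.W622.ETG Module

theorem t_CFULL : S_CFULL := by
  intro V _ _ _ e A X p f hX hf
  obtain ⟨h3, hp, hp0, hpe, hw⟩ := hX
  by_cases hf0 : f = 0
  · exact ⟨0, Submodule.zero_mem _, 0, by rw [hf0]; exact map_zero _⟩
  by_cases hfp : f = p
  · have hg : ∃ g ∈ X, g ∉ Submodule.span (ZMod 2) {p} := by
      by_contra hcon
      push Not at hcon
      have h4 : X ≤ Submodule.span (ZMod 2) {p} := hcon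
      have h5 := Submodule.finrank_mono h4
      have h6 : finrank (ZMod 2) (Submodule.span (ZMod 2) {p}) = 1 := finrank_span_singleton hp0
      omega
    obtain ⟨g, hgX, hg⟩ := hg
    obtain ⟨b, hb, hb1⟩ := exists_coann hg
    refine ⟨g, hgX, b, ?_⟩
    rw [wd_val_zero (hb p (Submodule.mem_span_singleton_self p)), hb1, one_smul, hfp]
  · have hpf : p ∉ Submodule.span (ZMod 2) {f} := by
      intro h
      rcases span_one_mem.1 h with h | h
      · exact hp0 h
      · exact hfp h.symm
    obtain ⟨b, hb, hb1⟩ := exists_coann hpf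
    have hfb : f b = 0 := hb f (Submodule.mem_span_singleton_self f)
    rcases z01 (f e) with h | h
    · exact ⟨f, hf, b, wd_val_one hb1 (by rw [hfb, h])⟩
    · refine ⟨f, hf, b + e, wd_val_one ?_ ?_⟩
      · rw [map_add, hb1, hpe, add_zero]
      · rw [map_add, hfb, zero_add]

end Pool.Agent.W688.ELG
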